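import Pool.Agent.Helper5.BD.Defs
import Pool.Agent.Helper27.SG.Perturb

/-!
# First order flatness, module C1
-/

noncomputable section

open Finset Helper5.CR Classical

namespace Helper5.BD

variable {V E X : Type} [Fintype V] [Fintype E] [Fintype X] {C : CSys V E X} {d : ℕ}

theorem sum_gv_le (C : CSys V E X) (t : ℝ) (ht0 : 0 < t) (ht : t ≤ 1 / 2)
    (hcol : ∀ col : V → Bool,
      (3 / 8 - t ^ 2) * (Fintype.card X : ℝ) ≤ ((∑ x, C.base col x : ℕ) : ℝ))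
    (s : V → V → ℝ) (D : ℝ) (hD0 : 0 ≤ D) (hD : ∀ v, ∑ j, |s v j| ≤ D) :
    ∑ x, Helper27.SG.gv C s x ≤ 64 * t * D * Fintype.card X := by
  have hN : (0 : ℝ) ≤ Fintype.card X := Nat.cast_nonneg _
  rcases hD0.eq_or_lt with h0 | hpos
  · have hs : ∀ u v, s u v = 0 := by
      intro u v
      have h1 := hD u
      rw [← h0] at h1
      have h2 : |s u v| ≤ ∑ j, |s u j| :=
        single_le_sum (f := fun j => |s u j|) (fun j _ => abs_nonneg _) (mem_univ v)
      exact abs_eq_zero.mp (le_antisymm (h2.trans h1) (abs_nonneg _))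
    have h3 : ∑ x, Helper27.SG.gv C s x = 0 := by
      refine sum_eq_zero fun x _ => ?_
      unfold Helper27.SG.gv
      simp only [hs]
      ring
    rw [h3, ← h0]
    simp
  · have hβD : t / D * D = t := div_mul_cancel₀ t hpos.ne'
    obtain ⟨col, h1⟩ := Helper27.SG.exists_col (s := s) (D := D) (α := 1 - t) (β := t / D) hD
      (by linarith) (by positivity) (by rw [hβD]; ring) C
    have h2 := (hcol col).trans h1
    rw [hβD] at h2
    set G := ∑ x, Helper27.SG.gv C s x with hG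
    have h3 : (1 - t) * (t / D) / 8 * G ≤ 4 * t ^ 2 * Fintype.card X := by linarith
    have h4 : (1 - t) * G ≤ 32 * t * D * Fintype.card X := by
      have h5 : (1 - t) * G = ((1 - t) * (t / D) / 8 * G) * (8 * D / t) := by
        field_simp
      have h6 : 32 * t * D * (Fintype.card X : ℝ) =
          (4 * t ^ 2 * Fintype.card X) * (8 * D / t) := by
        field_simp
        ring
      rw [h5, h6]
      exact mul_le_mul_of_nonneg_right h3 (by positivity)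
    rcases le_or_gt G 0 with h7 | h7
    · exact h7.trans (by positivity)
    · nlinarith

theorem flat_f1 (O : Ori C d) (t : ℝ)
    (hgv : ∀ (s : V → V → ℝ) (D : ℝ), 0 ≤ D → (∀ v, ∑ j, |s v j| ≤ D) →
      ∑ x, Helper27.SG.gv C s x ≤ 64 * t * D * Fintype.card X)
    (Γ : V → V → Prop) (D : ℕ) (h1 : ∀ u v, Γ u v → ¬ O.adj u v)
    (h2 : ∀ u, (univ.filter (fun v => Γ u v)).card ≤ D) :
    (Ori.cnt (fun x => ∃ u v, Γ u v ∧ O.cp x u v) : ℝ) ≤ 64 * t * D * Fintype.card X := by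
  set s : V → V → ℝ := fun u v => if Γ u v then -1 else 0 with hs
  have hsn : ∀ u v, s u v ≤ 0 := by
    intro u v
    simp only [hs]
    split_ifs <;> norm_num
  have hs1 : ∀ u v, Γ u v → s u v = -1 := by
    intro u v h
    simp only [hs]
    rw [if_pos h]
  have hs0 : ∀ u v, O.adj u v → s u v = 0 := by
    intro u v h
    simp only [hs]
    rw [if_neg (fun hg => h1 u v hg h)]
  have hrow : ∀ u, ∑ v, |s u v| ≤ (D : ℝ) := by
    intro u
    have h3 : ∑ v, |s u v| = ((univ.filter (fun v => Γ u v)).card : ℝ) := by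
      rw [card_filter]
      push_cast
      refine sum_congr rfl fun v _ => ?_
      simp only [hs]
      split_ifs <;> simp
    rw [h3]
    exact_mod_cast h2 u
  refine le_trans ?_ (hgv s D (Nat.cast_nonneg _) hrow)
  unfold Ori.cnt
  rw [card_filter]
  push_cast
  refine sum_le_sum fun x _ => ?_
  have harc : ∀ e, s (O.lo e) (O.hi e) = 0 ∧ s (O.hi e) (O.lo e) = 0 := by
    intro e
    exact ⟨hs0 _ _ (Or.inl ⟨e, rfl, rfl⟩), hs0 _ _ (Or.inr ⟨e, rfl, rfl⟩)⟩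
  -- the weight as a sum over the pairs of low and high ends
  have hform : Helper27.SG.gv C s x =
      -(s (O.lo (C.e₁ x)) (O.lo (C.e₂ x)) + s (O.lo (C.e₂ x)) (O.lo (C.e₁ x))) -
      (s (O.lo (C.e₁ x)) (O.hi (C.e₂ x)) + s (O.hi (C.e₂ x)) (O.lo (C.e₁ x))) -
      (s (O.hi (C.e₁ x)) (O.lo (C.e₂ x)) + s (O.lo (C.e₂ x)) (O.hi (C.e₁ x))) -
      (s (O.hi (C.e₁ x)) (O.hi (C.e₂ x)) + s (O.hi (C.e₂ x)) (O.hi (C.e₁ x))) := by
    obtain ⟨a1, a2⟩ := harc (C.e₁ x)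
    obtain ⟨b1, b2⟩ := harc (C.e₂ x)
    unfold Helper27.SG.gv
    rcases O.ends (C.e₁ x) with ⟨p1, p2⟩ | ⟨p1, p2⟩ <;>
      rcases O.ends (C.e₂ x) with ⟨q1, q2⟩ | ⟨q1, q2⟩ <;>
      rw [p1, p2, q1, q2, a1, a2, b1, b2] <;> ring
  rw [hform]
  have n1 := hsn (O.lo (C.e₁ x)) (O.lo (C.e₂ x))
  have n2 := hsn (O.lo (C.e₂ x)) (O.lo (C.e₁ x))
  have n3 := hsn (O.lo (C.e₁ x)) (O.hi (C.e₂ x))
  have n4 := hsn (O.hi (C.e₂ x)) (O.lo (C.e₁ x))
  have n5 := hsn (O.hi (C.e₁ x)) (O.lo (C.e₂ x))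
  have n6 := hsn (O.lo (C.e₂ x)) (O.hi (C.e₁ x))
  have n7 := hsn (O.hi (C.e₁ x)) (O.hi (C.e₂ x))
  have n8 := hsn (O.hi (C.e₂ x)) (O.hi (C.e₁ x))
  split_ifs with hx
  · obtain ⟨u, v, hΓ, hcp⟩ := hx
    have hm := hs1 u v hΓ
    unfold Ori.cp at hcp
    rcases hcp with ⟨hu | hu, hv | hv⟩ | ⟨hv | hv, hu | hu⟩ <;> rw [hu, hv] at hm <;> linarith
  · linarith

end Helper5.BD
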